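import Pool.Agent.H735K.ThmK

/-!
# A theorem of Barban, Davenport and Halberstam for the binary Goldbach problem, for almost all integers

For all but `N / (log N) ^ A` of the integers `n ≤ N` the primes `p` for which `n - p` is prime are equidistributed in
the residue classes `r (mod q)` with `r (n - r)` coprime to `q`, in mean square over all such classes to all moduli
`q ≤ N exp (-B (log log N) ^ 2)`, the maximum over the length of the interval being taken in every class separately.
-/

set_option autoImplicit false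

namespace Pool.Agent.Results.MP_dd84fd_nt.BarbanDavenportHalberstam

open Finset

/-- The product of `(1 - ν(p) / p) / (1 - 1 / p) ^ 2` over the primes `p ≤ z`, where `ν(p) = 1` if `p` divides `n` and
`ν(p) = 2` otherwise. For even `n` this converges to the number
`2 ∏_{p > 2} (1 - (p - 1) ^ (-2)) ∏_{p ∣ n, p > 2} (p - 1) / (p - 2)` of the conjecture of Hardy and Littlewood. -/
noncomputable def partialSing (n z : ℕ) : ℝ :=
  ∏ p ∈ (Icc 1 z).filter Nat.Prime, (1 - (if p ∣ n then 1 else 2) / (p : ℝ)) / (1 - 1 / (p : ℝ)) ^ 2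

/-- The residues `r (mod q)` with `r (n - r)` coprime to `q`. -/
def residues (n q : ℕ) : Finset ℕ := (range q).filter (fun r : ℕ => Int.gcd (r * ((n : ℤ) - r)) q = 1)

/-- The sum of `log p * log (n - p)` over the primes `p ≤ y`, `p ≡ r (mod q)`, for which `n - p` is prime. -/
noncomputable def goldbach (n q r y : ℕ) : ℝ :=
  ∑ p ∈ (Icc 1 y).filter (fun p => p ≡ r [MOD q] ∧ p.Prime ∧ (n - p).Prime), Real.log p * Real.log ((n - p : ℕ) : ℝ)

/-- The singular series converges to a number `S` (which is at least `c` if `n` is even) and, for all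
`Q ≤ N exp (-B (log log N) ^ 2)` and all choices of the lengths `y(q, r) < n`, the sum over all `q ≤ Q` and all the
classes `r (mod q)` with `r (n - r)` coprime to `q` of the squares of the differences `goldbach - S y / φ` is at most
`N ^ 2 / (log N) ^ A`; here `φ = φ_n(q)` is the number of these classes. -/
def Good (A B : ℕ) (c : ℝ) (N n : ℕ) : Prop :=
  ∃ S : ℝ, Filter.Tendsto (partialSing n) Filter.atTop (nhds S) ∧ (Even n → c ≤ S) ∧
    ∀ Q : ℕ, (Q : ℝ) ≤ N * Real.exp (-(B * Real.log (Real.log N) ^ 2)) →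
      ∀ y : ℕ → ℕ → ℕ, (∀ q r, y q r < n) →
        ∑ q ∈ Icc 1 Q, ∑ r ∈ residues n q,
          (goldbach n q r (y q r) - S * y q r / (residues n q).card) ^ 2 ≤ (N : ℝ) ^ 2 / Real.log N ^ A

open Pool.Agent.H735K
open Pool.Agent.H373R2.T7 (singZ nuP lamP singZ_low Admissible)

/-- the signs -/
def sg : Fin 1 → ℤ := fun _ => -1

lemma Fa_eq (n : ℕ) (x : ℤ) : Fa (fun i => sg i * (((fun _ => n) : Fin 1 → ℕ) i : ℤ)) x = -(x * ((n : ℤ) - x)) := by
  unfold Fa sg
  rw [Fin.prod_univ_one]
  ring

lemma nu_eq (n p : ℕ) (hp : p.Prime) : nuP (fun i => sg i * (((fun _ => n) : Fin 1 → ℕ) i : ℤ)) p = if p ∣ n then 1 else 2 := by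
  have h1 : (range p).filter (fun r : ℕ => p ∣ r ∨ ∃ i : Fin 1, (p : ℤ) ∣ (r : ℤ) + sg i * (((fun _ => n) : Fin 1 → ℕ) i : ℤ)) =
      {0, n % p} := by
    ext r
    rw [mem_filter, mem_range, mem_insert, mem_singleton]
    have h2 : (∃ i : Fin 1, (p : ℤ) ∣ (r : ℤ) + sg i * (((fun _ => n) : Fin 1 → ℕ) i : ℤ)) ↔ n ≡ r [MOD p] := by
      rw [Nat.modEq_iff_dvd]
      constructor
      · rintro ⟨i, hi⟩
        have e : (r : ℤ) + sg i * (((fun _ => n) : Fin 1 → ℕ) i : ℤ) = (r : ℤ) - n := by
          unfold sg; ring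
        rwa [e] at hi
      · intro hi
        refine ⟨0, ?_⟩
        have e : (r : ℤ) + sg 0 * (((fun _ => n) : Fin 1 → ℕ) 0 : ℤ) = (r : ℤ) - n := by
          unfold sg; ring
        rwa [e]
    rw [h2]
    constructor
    · rintro ⟨h3, h4 | h4⟩
      · left
        exact Nat.eq_zero_of_dvd_of_lt h4 h3
      · right
        unfold Nat.ModEq at h4
        rw [h4, Nat.mod_eq_of_lt h3]
    · rintro (h3 | h3)
      · rw [h3]
        exact ⟨hp.pos, Or.inl (dvd_zero _)⟩
      · rw [h3]
        refine ⟨Nat.mod_lt _ hp.pos, Or.inr ?_⟩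
        exact (Nat.mod_modEq n p).symm
  unfold nuP
  have h5 : ((range p).filter (fun r : ℕ => p ∣ r ∨ ∃ i : Fin 1, (p : ℤ) ∣ (r : ℤ) + sg i * (((fun _ => n) : Fin 1 → ℕ) i : ℤ))).card =
      if p ∣ n then 1 else 2 := by
    rw [h1]
    split_ifs with h
    · rw [Nat.mod_eq_zero_of_dvd h]
      simp
    · rw [card_pair]
      intro h0
      exact h (Nat.dvd_of_mod_eq_zero h0.symm)
  rw [← h5]

lemma sing_eq (n z : ℕ) : partialSing n z = singZ (fun i => sg i * (((fun _ => n) : Fin 1 → ℕ) i : ℤ)) z := by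
  unfold partialSing singZ
  refine prod_congr rfl fun p hp => ?_
  rw [nu_eq n p (mem_filter.1 hp).2]
  split_ifs <;> norm_num

lemma residues_eq (n q : ℕ) : residues n q = redF (Fa (fun i => sg i * (((fun _ => n) : Fin 1 → ℕ) i : ℤ))) q := by
  unfold residues redF
  apply filter_congr
  intro r _
  rw [Fa_eq, Int.neg_gcd]

lemma card_eq (n q : ℕ) : (residues n q).card = phF (Fa (fun i => sg i * (((fun _ => n) : Fin 1 → ℕ) i : ℤ))) q := by
  rw [residues_eq]
  rfl

lemma theta_eq (n q r y : ℕ) : goldbach n q r y = thT sg (fun i => (((fun _ => n) : Fin 1 → ℕ) i : ℤ)) y q r := by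
  unfold goldbach thT tP
  rw [← filter_filter, sum_filter]
  refine sum_congr rfl fun m _ => ?_
  rw [Fin.prod_univ_one]
  have e1 : (sg 0 * (m : ℤ) + (((fun _ => n) : Fin 1 → ℕ) 0 : ℤ)).toNat = n - m := by
    change (-1 * (m : ℤ) + (n : ℤ)).toNat = n - m
    omega
  unfold lamP
  rw [e1, Int.toNat_natCast]
  by_cases h1 : m.Prime
  · by_cases h2 : (n - m).Prime
    · rw [if_pos ⟨h1, h2⟩, if_pos h1, if_pos h2]
    · rw [if_neg (fun h => h2 h.2), if_neg h2, mul_zero]
  · rw [if_neg (fun h => h1 h.1), if_neg h1, zero_mul]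

lemma adm_eq (n : ℕ) (hn : Even n) : Admissible (fun i => sg i * (((fun _ => n) : Fin 1 → ℕ) i : ℤ)) := by
  intro p hp
  rcases hp.eq_two_or_odd' with h2 | hodd
  · refine ⟨1, ?_, fun i => ?_⟩
    · rw [h2]; norm_num
    · rw [h2]
      obtain ⟨m, hm⟩ := hn
      have e : (1 : ℤ) + sg i * (((fun _ => n) : Fin 1 → ℕ) i : ℤ) = 1 - 2 * m := by
        unfold sg
        rw [hm]; push_cast; ring
      rw [e]
      omega
  · have hp3 : 3 ≤ p := by
      have := hp.two_le
      rcases hodd with ⟨m, hm⟩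
      omega
    -- one of 1, 2 works
    have hp1 : ¬ (p : ℤ) ∣ 1 := by
      intro h
      have := Int.le_of_dvd (by norm_num) h
      omega
    by_cases h1 : (p : ℤ) ∣ 1 - n
    · refine ⟨2, ?_, fun i => ?_⟩
      · intro h
        have := Int.le_of_dvd (by norm_num) h
        omega
      · have e : (2 : ℤ) + sg i * (((fun _ => n) : Fin 1 → ℕ) i : ℤ) = (1 - n) + 1 := by
          unfold sg
          ring
        rw [e]
        intro h
        exact hp1 ((Int.dvd_add_right h1).1 h)
    · refine ⟨1, hp1, fun i => ?_⟩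
      have e : (1 : ℤ) + sg i * (((fun _ => n) : Fin 1 → ℕ) i : ℤ) = 1 - n := by
        unfold sg
        ring
      rw [e]
      exact h1

open Classical in
/-- There is an absolute constant `c > 0` such that for all `A` there are `B` and `N₀` such that for all `N ≥ N₀`
all but `N / (log N) ^ A` of the integers `n` in `[1, N]` are `Good`. -/
theorem result : ∃ c : ℝ, 0 < c ∧ ∀ A : ℕ, ∃ B N₀ : ℕ, ∀ N : ℕ, N₀ ≤ N →
    (((Icc 1 N).filter (fun n => ¬ Good A B c N n)).card : ℝ) ≤ N / Real.log N ^ A := by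
  obtain ⟨c, hc, hlow⟩ := singZ_low 1
  refine ⟨c, hc, fun A => ?_⟩
  obtain ⟨B, N0, hN0⟩ := thmK 1 A
  refine ⟨B, N0, fun N hN => ?_⟩
  have hmain := hN0 N hN sg (fun _ => Or.inr rfl)
  rw [pow_one] at hmain
  refine le_trans ?_ hmain
  have hle : ((Icc 1 N).filter (fun n => ¬ Good A B c N n)).card ≤
      ((Fintype.piFinset (fun _ : Fin 1 => Icc 1 N)).filter (fun h => ¬ GoodT A B N sg h)).card := by
    refine card_le_card_of_injOn (fun n => (fun _ => n : Fin 1 → ℕ)) ?_ ?_
    · intro n hn
      rw [mem_coe, mem_filter] at hn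
      rw [mem_coe, mem_filter, Fintype.mem_piFinset]
      refine ⟨fun _ => hn.1, fun hg => hn.2 ?_⟩
      obtain ⟨S, hS, hall⟩ := hg
      have hS' : Filter.Tendsto (partialSing n) Filter.atTop (nhds S) := by
        refine hS.congr fun z => ?_
        rw [sing_eq]
      refine ⟨S, hS', fun hev => ?_, fun Q hQ y hy => ?_⟩
      · apply ge_of_tendsto hS'
        filter_upwards with z
        rw [sing_eq]
        exact hlow _ (adm_eq n hev) z
      · have hn1 := mem_Icc.1 hn.1
        have h1 := hall (n - 1) (by omega) (fun i m hm => by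
          have := mem_Icc.1 hm
          change (1 : ℤ) ≤ -1 * (m : ℤ) + (n : ℤ)
          omega) Q hQ y (fun q r => by
            have := hy q r
            omega)
        refine le_trans (le_of_eq ?_) h1
        refine sum_congr rfl fun q _ => ?_
        rw [card_eq, residues_eq]
        refine sum_congr rfl fun r _ => ?_
        rw [theta_eq]
        ring
    · intro n _ m _ h
      exact congrFun h 0
  exact_mod_cast hle

end Pool.Agent.Results.MP_dd84fd_nt.BarbanDavenportHalberstam
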