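import Pool.Agent.helper616_TE.Main

/-!
# The number of the representations by two primes with almost all real coefficients, exceptional set

For almost all positive real `l 0`, `l 1` the number of the pairs of primes `p`, `q` with `t < l 0 * p + l 1 * q ≤ t + h` is
at least `c * t / (log t) ^ 2` for all `t ≤ T` outside a set of measure `O(T ^ (2 / 5) * (log T) ^ K)`.

Proof: the variance of the number of the representations over the coefficients and over `t ≤ T`, for the window `h`
compared with the window `T ^ (2 / 5)`; for the long window the number has the right order for all `t`, by the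
distribution of the primes in almost all intervals of length `X ^ (2 / 5)`.
-/

set_option autoImplicit false

open Filter Topology MeasureTheory

namespace Pool.Agent.Results.MP_dd84fd_nt.FewRepresentations

/-- The number of the pairs of primes `(x 0, x 1)` with `t < l 0 * x 0 + l 1 * x 1 ≤ t + h` (a finite set for positive
`l 0`, `l 1`). -/
noncomputable def reps (l : Fin 2 → ℝ) (t h : ℝ) : ℕ :=
  Set.ncard {x : Fin 2 → ℕ | (∀ i, (x i).Prime) ∧ t < ∑ i, l i * (x i : ℝ) ∧ ∑ i, l i * (x i : ℝ) ≤ t + h}

/-- For almost all `l ∈ (0, ∞) ^ 2` and all `h > 0` there are `c > 0`, `C`, `K` such that for all `T ≥ 2` the set of the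
`t ∈ [2, T]` with fewer than `c * t / (log t) ^ 2` representations has measure at most
`C * (log T) ^ K * T ^ (2 / 5)`. -/
theorem result : ∀ᵐ l : Fin 2 → ℝ, (∀ i, 0 < l i) → ∀ h : ℝ, 0 < h → ∃ (c C : ℝ) (K : ℕ), 0 < c ∧ ∀ T : ℝ, 2 ≤ T →
      volume {t : ℝ | 2 ≤ t ∧ t ≤ T ∧ (reps l t h : ℝ) < c * t / (Real.log t) ^ 2} ≤
        ENNReal.ofReal (C * (Real.log T) ^ K * T ^ ((2 : ℝ) / 5)) :=
  Pool.Agent.helper616_TW.fewall

end Pool.Agent.Results.MP_dd84fd_nt.FewRepresentations
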