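import Pool.Agent.helper616_TG.Main2

/-!
# The binary Goldbach problem with almost all real coefficients, along every sparse sequence

Let `σ j` be real numbers which grow at least like `exp (j ^ δ)` for some `δ > 0` (for instance the powers of `2`, the
factorials, or any sequence with at most a power of `log x` members up to `x`, in increasing order). For almost every
pair `(l₁, l₂)` of positive real numbers and all `u < v` the number of pairs of primes `(p, q)` with
`σ j + u < l₁ p + l₂ q < σ j + v` is asymptotically `(v - u) / (l₁ l₂) * σ j / (log (σ j)) ^ 2`, as in the conjecture of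
Hardy and Littlewood.

Proof: second moment over `(1 / l₂, l₁ / l₂)` of the sums of `log p h(⌊K (σ j - l₁ p) / l₂⌋)`, where `h` has mean value
zero; two different arguments `p` give values which move independently.
-/

set_option autoImplicit false

open Filter Topology MeasureTheory

namespace Pool.Agent.Results.MP_dd84fd_nt.RealCoefficientsSparse

/-- For almost all `l = (l₁, l₂)` with `l₁, l₂ > 0`: for all `u < v` the number of pairs of primes `(p, q)` with
`u < l₁ p + l₂ q - σ j < v`, divided by `σ j / (log (σ j)) ^ 2`, tends to `(v - u) / (l₁ l₂)`. -/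
theorem result (σ : ℕ → ℝ) (δ : ℝ) (hδ : 0 < δ) (hσ : ∀ᶠ j : ℕ in atTop, Real.exp ((j : ℝ) ^ δ) ≤ σ j) :
    ∀ᵐ l : ℝ × ℝ, 0 < l.1 → 0 < l.2 → ∀ u v : ℝ, u < v →
      Tendsto (fun j => ((Set.ncard {x : ℕ × ℕ | x.1.Prime ∧ x.2.Prime ∧ u < l.1 * x.1 + l.2 * x.2 - σ j ∧
        l.1 * x.1 + l.2 * x.2 - σ j < v} : ℕ) : ℝ) / (σ j / (Real.log (σ j)) ^ 2)) atTop (𝓝 ((v - u) / (l.1 * l.2))) :=
  Pool.Agent.helper616_TG.goldbach σ δ hδ hσ

end Pool.Agent.Results.MP_dd84fd_nt.RealCoefficientsSparse
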