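import Pool.Agent.helper24_UT.Ch13
import Pool.Agent.helper24_UT.Pf
import Pool.Agent.helper24_UT.Gss
import Pool.Agent.helper24_UT.Gsu
import Pool.Agent.TH894.SM0

set_option autoImplicit false

/-!
# The lower bound for the number of Goldbach representations for almost all members of thin families in windows of length
`N ^ (1 / 3 + ε)`, and in all residue classes to all moduli up to `N exp (- B (log log N) ^ 2)`

Let `ε, δ > 0` and `A`, `C` be fixed, let `N` be large. Let `s 1, ..., s x` be integers in a window `(c, c + H]` with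
`N / (log N) ^ C ≤ c`, `c + H ≤ N` and `H ≥ N ^ (1 / 3 + ε)`, whose additive energy of some order `p` is, up to the factor
`(log N) ^ C`, the smallest possible one `x ^ (2 p) / H`. Then all but at most `x / (log N) ^ A` of the even members `n` of the
family have the following two properties.
(1) The number `g(n)` of representations of `n` as a sum of two primes lies between `(1 - δ) C₂` and `1 + δ` times
`n ^ 2 / (φ(n) log ^ 2 n)`; in particular `g(n) ≥ (1 - δ) C₂ n / log ^ 2 n`.
(2) The prime `m` of the representations `n = m + (n - m)` is equidistributed in the residue classes `r` modulo `q` with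
`r (n - r)` coprime to `q` in mean square over ALL moduli `q ≤ Q = N exp (- B (log log N) ^ 2)`, with any saving of a power of
the logarithm, the length `y = y(q, r)` being chosen in every class as unfavourably as possible.
This applies to the numbers `n = c + f(m)`, `m ≤ x`, for every polynomial `f` and `N ^ (1/3 + ε) ≤ x ^ deg f ≤ N`, e.g.
to `n = c + 2 m ^ 2` with `m ≤ N ^ (1 / 6 + ε)`.

Proof. The correlations of the primes minus their sieve model along the family are bounded by the additive energy and by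
the mean squares of short exponential sums over primes (`Pool.Agent.helper24_UT.Ch.t_MKT`, the method of Mikawa), for all
twists with rational numbers of small denominators; the large sieve gives all classes to all moduli. The energy of
polynomial values is from the starting files.

Definitions used from `Pool.Agent.H560R3.GB` (starting files): `C₂`: the twin prime constant
`∏_{p > 2} (1 - 1 / (p - 1) ^ 2)`; `sing n`: the singular series `2 C₂ ∏_{p ∣ n, p > 2} (p - 1) / (p - 2)`; `g n`: the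
number of ordered representations of `n` as a sum of two primes.
-/

namespace Pool.Agent.Results.MP_dd84fd_nt.ThinFamiliesShortWindows

open Finset Polynomial
open Pool.Agent.H560R3.GB (C₂ sing g)

/-- the number of the primes `m ≤ y` with `m ≡ r (mod q)` for which `n - m` is a prime (for `r < q`) -/
def count (n q r y : ℕ) : ℕ := ((Icc 1 y).filter (fun m => m % q = r ∧ m.Prime ∧ m < n ∧ (n - m).Prime)).card

/-- `∑_{2 ≤ m ≤ y, m ≤ n - 2} 1 / (log m log (n - m))` -/
noncomputable def logSum (n y : ℕ) : ℝ := ∑ m ∈ Icc 2 (min y (n - 2)), 1 / (Real.log m * Real.log ((n - m : ℕ) : ℝ))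

/-- the residues `r` modulo `q` for which `r` and `n - r` are coprime to `q` -/
def residues (n q : ℕ) : Finset ℕ := (range q).filter (fun r : ℕ => r.Coprime q ∧ Int.gcd ((n : ℤ) - r) q = 1)

/-- (1) the number of representations of `n` as a sum of two primes is at least `(1 - δ) C₂` times and at most `1 + δ` times
`n ^ 2 / (φ(n) log ^ 2 n)`; (2) for all `Q ≤ N exp (- B (log log N) ^ 2)` and all choices of the lengths `y q r ≤ N` the sum, over
all `q ≤ Q` and all residues `r` of `residues n q`, of the squares of `count - (𝔖(n) / φ_n(q)) logSum` is at most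
`N ^ 2 / (log N) ^ A`. -/
def Holds (δ : ℝ) (A B N n : ℕ) : Prop :=
  ((1 - δ) * C₂ * ((n : ℝ) ^ 2 / (n.totient * Real.log n ^ 2)) ≤ g n ∧
    (g n : ℝ) ≤ (1 + δ) * ((n : ℝ) ^ 2 / (n.totient * Real.log n ^ 2))) ∧
  ∀ Q : ℕ, (Q : ℝ) ≤ N * Real.exp (-(B * Real.log (Real.log N) ^ 2)) → ∀ y : ℕ → ℕ → ℕ, (∀ q r, y q r ≤ N) →
    ∑ q ∈ Icc 1 Q, ∑ r ∈ residues n q,
      ((count n q r (y q r) : ℝ) - sing n / (residues n q).card * logSum n (y q r)) ^ 2 ≤ (N : ℝ) ^ 2 / (Real.log N) ^ A

/-- The additive energy of order `p` of the family `s 1, ..., s x`: the number of the solutions of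
`s (v 1) + ... + s (v p) = s (w 1) + ... + s (w p)` with all `v i`, `w i` in `{1, ..., x}`. -/
def energy (p x : ℕ) (s : ℕ → ℤ) : ℕ :=
  (((Fintype.piFinset fun _ : Fin p => Icc 1 x) ×ˢ (Fintype.piFinset fun _ : Fin p => Icc 1 x)).filter
    (fun q => ∑ i, s (q.1 i) = ∑ i, s (q.2 i))).card

open Classical in
/-- The number of the `m`, `1 ≤ m ≤ x`, for which `s m` is even and `Holds` fails for `s m`. -/
noncomputable def exceptions (δ : ℝ) (A B N x : ℕ) (s : ℕ → ℕ) : ℕ :=
  ((Icc 1 x).filter (fun m => 2 ∣ s m ∧ ¬ Holds δ A B N (s m))).card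

theorem phi_eq (n q : ℕ) :
    Pool.Agent.helper24_UT.phf Pool.Agent.helper24_UT.sG (Pool.Agent.helper24_UT.hG n) q = (residues n q).card := by
  classical
  unfold Pool.Agent.helper24_UT.phf residues
  congr 1
  apply filter_congr
  intro t _
  rw [Fin.forall_fin_two]
  have e0 : Pool.Agent.helper24_UT.sG 0 * (t : ℤ) + Pool.Agent.helper24_UT.hG n 0 = (t : ℤ) := by
    simp [Pool.Agent.helper24_UT.sG, Pool.Agent.helper24_UT.hG]
  have e1 : Pool.Agent.helper24_UT.sG 1 * (t : ℤ) + Pool.Agent.helper24_UT.hG n 1 = (n : ℤ) - t := by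
    simp [Pool.Agent.helper24_UT.sG, Pool.Agent.helper24_UT.hG]
    ring
  rw [e0, e1, Int.gcd_natCast_natCast]

/-- `count n 1 0 n` is the number of ordered representations -/
theorem count_one (n : ℕ) : count n 1 0 n = g n := by
  unfold count g
  apply card_bij' (fun m _ => (m, n - m)) (fun q _ => q.1)
  · intro m hm
    rw [mem_filter, mem_Icc] at hm
    rw [mem_filter, HasAntidiagonal.mem_antidiagonal]
    exact ⟨by simp only; omega, hm.2.2.1, hm.2.2.2.2⟩
  · intro q hq
    rw [mem_filter, HasAntidiagonal.mem_antidiagonal] at hq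
    have h1 := hq.2.1.pos
    have h2 := hq.2.2.pos
    rw [mem_filter, mem_Icc]
    refine ⟨⟨h1, by omega⟩, Nat.mod_one _, hq.2.1, by omega, ?_⟩
    have e : n - q.1 = q.2 := by omega
    rw [e]
    exact hq.2.2
  · intro m _
    rfl
  · intro q hq
    rw [mem_filter, HasAntidiagonal.mem_antidiagonal] at hq
    ext
    · rfl
    · simp only
      omega

lemma C₂_pos : 0 < C₂ := by
  obtain ⟨c, hc, hS⟩ := Pool.Agent.helper24_UT.Slb.main 2
  have h1 := (hS Pool.Agent.helper24_UT.sG (Pool.Agent.helper24_UT.hG 2) (by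
    intro i
    fin_cases i
    · exact Or.inl rfl
    · exact Or.inr rfl) (by
    intro i j hij
    fin_cases i <;> fin_cases j
    · exact absurd rfl hij
    · simp [Pool.Agent.helper24_UT.sG, Pool.Agent.helper24_UT.hG]
    · simp [Pool.Agent.helper24_UT.sG, Pool.Agent.helper24_UT.hG]
    · exact absurd rfl hij)).2
  have h2 : c ≤ Pool.Agent.helper24_UT.sers Pool.Agent.helper24_UT.sG (Pool.Agent.helper24_UT.hG 2) := by
    apply h1
    intro p hp
    by_cases hd : p ∣ 2
    · rw [Pool.Agent.helper24_UT.Gss.nuf_dvd hp hd]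
      exact hp.one_lt
    · rw [Pool.Agent.helper24_UT.Gss.nuf_ndvd hp hd]
      have h3 : p ≠ 2 := fun h => hd (h ▸ dvd_rfl)
      have := hp.two_le
      omega
  rw [Pool.Agent.helper24_UT.Gss.main 2 le_rfl dvd_rfl] at h2
  have h4 := (Pool.Agent.TH894.SM.sing_tot 2 (by norm_num) dvd_rfl)
  have h5 : sing 2 = 2 * C₂ := by
    unfold sing
    have : (2 : ℕ).primeFactors.filter (fun p => 2 < p) = ∅ := by
      rw [Nat.Prime.primeFactors Nat.prime_two]
      rfl
    rw [this, prod_empty, mul_one]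
  linarith

/-- the order of magnitude -/
lemma order {n : ℕ} (hn : 2 ≤ n) (h2 : 2 ∣ n) {δ η G E R : ℝ} (hη : 0 < η) (hη1 : η ≤ 1 / 4) (hδ : 2 * η ≤ δ)
    (hE : |E - n / Real.log n ^ 2| ≤ η * (n / Real.log n ^ 2)) (hG : |G - sing n * E| ≤ R)
    (hR : R ≤ η * (C₂ * (n / Real.log n ^ 2))) :
    (1 - δ) * C₂ * ((n : ℝ) ^ 2 / (n.totient * Real.log n ^ 2)) ≤ G ∧
    G ≤ (1 + δ) * ((n : ℝ) ^ 2 / (n.totient * Real.log n ^ 2)) := by
  have hC := C₂_pos
  have hn0 : (0 : ℝ) < n := by exact_mod_cast (by omega : 0 < n)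
  have hl : 0 < Real.log n := Real.log_pos (by exact_mod_cast (by omega : 1 < n))
  have hφ : (0 : ℝ) < n.totient := by exact_mod_cast Nat.totient_pos.2 (by omega)
  have hφn : (n.totient : ℝ) ≤ n := by exact_mod_cast Nat.totient_le n
  obtain ⟨s1, s2⟩ := Pool.Agent.TH894.SM.sing_tot n (by omega) h2
  have hT : (n : ℝ) ^ 2 / (n.totient * Real.log n ^ 2) = (n / n.totient) * (n / Real.log n ^ 2) := by
    field_simp
  rw [hT]
  set T := (n : ℝ) / Real.log n ^ 2 with hTdef
  set F := (n : ℝ) / n.totient with hFdef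
  have hT0 : 0 < T := by positivity
  have hF1 : 1 ≤ F := by rw [hFdef, one_le_div hφ]; exact hφn
  have hs0 : 0 < sing n := lt_of_lt_of_le (by positivity) s1
  have hCs : C₂ ≤ sing n := by nlinarith
  have h1 : |sing n * E - sing n * T| ≤ sing n * (η * T) := by
    rw [← mul_sub, abs_mul, abs_of_pos hs0]
    exact mul_le_mul_of_nonneg_left hE hs0.le
  have h3 : R ≤ η * (sing n * T) := hR.trans (by
    apply mul_le_mul_of_nonneg_left _ hη.le
    exact mul_le_mul_of_nonneg_right hCs hT0.le)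
  rw [abs_le] at h1 hG
  have h4 : (1 - 2 * η) * (sing n * T) ≤ G := by nlinarith
  have h5 : G ≤ (1 + 2 * η) * (sing n * T) := by nlinarith
  have h6 : C₂ * F * T ≤ sing n * T := mul_le_mul_of_nonneg_right s1 hT0.le
  have h7 : sing n * T ≤ F * T := mul_le_mul_of_nonneg_right s2 hT0.le
  have h8 : 0 < C₂ * F * T := by positivity
  have h9 : 0 < F * T := by positivity
  constructor
  · calc (1 - δ) * C₂ * (F * T) = (1 - δ) * (C₂ * F * T) := by ring
      _ ≤ (1 - 2 * η) * (C₂ * F * T) := by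
        apply mul_le_mul_of_nonneg_right _ h8.le
        linarith
      _ ≤ (1 - 2 * η) * (sing n * T) := by
        apply mul_le_mul_of_nonneg_left h6
        linarith
      _ ≤ G := h4
  · calc G ≤ (1 + 2 * η) * (sing n * T) := h5
      _ ≤ (1 + 2 * η) * (F * T) := by
        apply mul_le_mul_of_nonneg_left h7
        linarith
      _ ≤ (1 + δ) * (F * T) := by
        apply mul_le_mul_of_nonneg_right _ h9.le
        linarith

/-- a property of large numbers -/
lemma large' (B n₀ C : ℕ) (L : ℝ) : ∃ N₁ : ℕ, ∀ N : ℕ, N₁ ≤ N → L ≤ Real.log N ∧ (n₀ : ℝ) * (Real.log N) ^ C ≤ N ∧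
    1 ≤ N * Real.exp (-(B * Real.log (Real.log N) ^ 2)) := by
  have hlog : Filter.Tendsto (fun N : ℕ => Real.log (N : ℝ)) Filter.atTop Filter.atTop :=
    Real.tendsto_log_atTop.comp tendsto_natCast_atTop_atTop
  have h1 : ∀ᶠ N : ℕ in Filter.atTop, max L 1 ≤ Real.log N := hlog.eventually_ge_atTop _
  have h2 : ∀ᶠ x : ℝ in Filter.atTop, ‖Real.log x ^ C‖ ≤ 1 / (n₀ + 1 : ℝ) * ‖x‖ :=
    (Real.isLittleO_pow_log_id_atTop (n := C)).bound (by positivity)
  have h3 : ∀ᶠ x : ℝ in Filter.atTop, ‖Real.log x ^ 2‖ ≤ 1 / (B + 1 : ℝ) * ‖x‖ :=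
    (Real.isLittleO_pow_log_id_atTop (n := 2)).bound (by positivity)
  have h2' := (tendsto_natCast_atTop_atTop (R := ℝ)).eventually h2
  have h3' := hlog.eventually h3
  obtain ⟨N₁, hN₁⟩ := Filter.eventually_atTop.1 (h1.and (h2'.and h3'))
  refine ⟨max N₁ 1, fun N hN => ?_⟩
  obtain ⟨g1, g2, g3⟩ := hN₁ N ((le_max_left _ _).trans hN)
  have hNpos : (0 : ℝ) < N := by exact_mod_cast (le_max_right _ _).trans hN
  refine ⟨(le_max_left _ _).trans g1, ?_, ?_⟩
  · rw [Real.norm_eq_abs, Real.norm_eq_abs, abs_of_pos hNpos] at g2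
    have g4 := (le_abs_self _).trans g2
    have hn : (0 : ℝ) ≤ n₀ := Nat.cast_nonneg _
    rw [div_mul_eq_mul_div, one_mul, le_div_iff₀ (by positivity)] at g4
    have hl : 0 ≤ Real.log N ^ C := pow_nonneg (by have := (le_max_right L 1).trans g1; linarith) _
    nlinarith
  · have hl1 : 1 ≤ Real.log N := (le_max_right _ _).trans g1
    rw [Real.norm_eq_abs, Real.norm_eq_abs, abs_of_pos (by linarith : (0 : ℝ) < Real.log N)] at g3
    have g4 := (le_abs_self _).trans g3
    have hB : (0 : ℝ) ≤ B := Nat.cast_nonneg _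
    rw [div_mul_eq_mul_div, one_mul, le_div_iff₀ (by positivity)] at g4
    have g5 : B * Real.log (Real.log N) ^ 2 ≤ Real.log N := by nlinarith [sq_nonneg (Real.log (Real.log N))]
    calc (1 : ℝ) = N * Real.exp (-Real.log N) := by rw [Real.exp_neg, Real.exp_log hNpos, mul_inv_cancel₀ hNpos.ne']
      _ ≤ _ := by
        apply mul_le_mul_of_nonneg_left _ hNpos.le
        apply Real.exp_le_exp.2
        linarith

/-- one number `n` -/
lemma one_n (δ : ℝ) (hδ : 0 < δ) (A C B : ℕ) : ∃ N₁ : ℕ, ∀ N : ℕ, N₁ ≤ N → ∀ n : ℕ, 2 ∣ n → n ≤ N →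
    (N : ℝ) ≤ Real.log N ^ C * n → Pool.Agent.helper24_UT.Good7 (2 * (A + C + 5)) B N n → Holds δ A B N n := by
  have hC := C₂_pos
  obtain ⟨η, hη0, hη1, hη2⟩ : ∃ η : ℝ, 0 < η ∧ η ≤ 1 / 4 ∧ 2 * η ≤ δ := by
    refine ⟨min (1 / 4) (δ / 2), lt_min (by norm_num) (by linarith), min_le_left _ _, ?_⟩
    have := min_le_right (1 / 4) (δ / 2)
    linarith
  obtain ⟨n₀, hn₀⟩ := Pool.Agent.helper24_UT.Gsu.main η hη0
  obtain ⟨N₁, hN₁⟩ := large' B (n₀ + 2) C (max 2 (1 / (η * C₂)))
  refine ⟨max N₁ 1, fun N hN n h2 hnN hNn hg => ?_⟩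
  have hN1 : (1 : ℝ) ≤ N := by exact_mod_cast (le_max_right _ _).trans hN
  obtain ⟨hL, hT, hQ1⟩ := hN₁ N ((le_max_left _ _).trans hN)
  set L := Real.log N with hLdef
  have hL2 : 2 ≤ L := (le_max_left _ _).trans hL
  have hLC : 1 / (η * C₂) ≤ L := (le_max_right _ _).trans hL
  have hLp : 0 < L := by linarith
  have hnn₀ : n₀ + 2 ≤ n := by
    have h3 : ((n₀ + 2 : ℕ) : ℝ) * L ^ C ≤ n * L ^ C := hT.trans (by rw [mul_comm (n : ℝ)]; exact hNn)
    have h4 := le_of_mul_le_mul_right h3 (by positivity)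
    exact_mod_cast h4
  have h2n : 2 ≤ n := by omega
  have hsing := Pool.Agent.helper24_UT.Gss.main n h2n h2
  have hcommon : ∀ Q : ℕ, (Q : ℝ) ≤ N * Real.exp (-(B * Real.log L ^ 2)) → ∀ y : ℕ → ℕ → ℕ, (∀ q r, y q r ≤ N) →
      ∑ q ∈ Icc 1 Q, ∑ r ∈ residues n q,
        ((count n q r (y q r) : ℝ) - sing n / (residues n q).card * logSum n (y q r)) ^ 2 ≤
          (N : ℝ) ^ 2 / L ^ (2 * (A + C + 5)) := by
    intro Q hQ y hy
    have h3 := hg Q hQ y hy
    rw [hsing] at h3
    simp only [phi_eq] at h3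
    exact h3
  refine ⟨?_, fun Q hQ y hy => (hcommon Q hQ y hy).trans ?_⟩
  · have h3 := hcommon 1 (by rw [Nat.cast_one]; exact hQ1) (fun _ _ => n) (fun _ _ => hnN)
    have hres : residues n 1 = {0} := by
      ext r
      unfold residues
      rw [mem_filter, mem_range, mem_singleton]
      constructor
      · rintro ⟨h4, _⟩
        omega
      · rintro rfl
        refine ⟨by omega, Nat.coprime_one_right 0, ?_⟩
        rw [Nat.cast_one, Int.gcd_one]
    rw [Icc_self, sum_singleton, hres, sum_singleton, card_singleton, Nat.cast_one, div_one, count_one] at h3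
    have h4 : |(g n : ℝ) - sing n * logSum n n| ≤ N / L ^ (A + C + 5) := by
      apply abs_le_of_sq_le_sq _ (by positivity)
      rw [div_pow, ← pow_mul, mul_comm (A + C + 5) 2]
      exact h3
    refine order h2n h2 hη0 hη1 hη2 (hn₀ n (by omega)) h4 ?_
    have hn0 : (0 : ℝ) < n := by exact_mod_cast (by omega : 0 < n)
    have hlogn : Real.log n ≤ L := by
      rw [hLdef]
      apply Real.log_le_log hn0
      exact_mod_cast hnN
    have hlogn0 : 0 < Real.log n := Real.log_pos (by exact_mod_cast (by omega : 1 < n))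
    calc (N : ℝ) / L ^ (A + C + 5) ≤ L ^ C * n / L ^ (A + C + 5) := by
          apply div_le_div_of_nonneg_right hNn (by positivity)
      _ = n / L ^ 2 * (1 / L ^ (A + 3)) := by
          rw [show A + C + 5 = C + (2 + (A + 3)) by ring, pow_add L C, pow_add L 2]
          field_simp
      _ ≤ n / L ^ 2 * (1 / L) := by
          apply mul_le_mul_of_nonneg_left _ (by positivity)
          apply one_div_le_one_div_of_le hLp
          exact le_self_pow₀ (by linarith) (by omega)
      _ ≤ n / L ^ 2 * (η * C₂) := by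
          apply mul_le_mul_of_nonneg_left _ (by positivity)
          rw [div_le_iff₀ hLp]
          rw [div_le_iff₀ (by positivity)] at hLC
          linarith
      _ ≤ n / Real.log n ^ 2 * (η * C₂) := by
          apply mul_le_mul_of_nonneg_right _ (by positivity)
          apply div_le_div_of_nonneg_left hn0.le (by positivity)
          exact pow_le_pow_left₀ hlogn0.le hlogn 2
      _ = η * (C₂ * (n / Real.log n ^ 2)) := by ring
  · apply div_le_div_of_nonneg_left (by positivity) (by positivity)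
    exact pow_le_pow_right₀ (by linarith) (by omega)

open Classical in
/-- the first part -/
theorem general (ε δ : ℝ) (A C p : ℕ) (hε : 0 < ε) (hδ : 0 < δ) (hp : 1 ≤ p) : ∃ B N₀ : ℕ, ∀ N : ℕ, N₀ ≤ N →
    ∀ (H x c : ℕ) (s : ℕ → ℕ), (N : ℝ) ^ (1 / 3 + ε) ≤ H → c + H ≤ N → (N : ℝ) ≤ Real.log N ^ C * c →
    (∀ m ∈ Icc 1 x, c < s m ∧ s m ≤ c + H) →
    (energy p x (fun m => (s m : ℤ)) : ℝ) * H ≤ Real.log N ^ C * (x : ℝ) ^ (2 * p) →
    (exceptions δ A B N x s : ℝ) ≤ x / Real.log N ^ A := by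
  obtain ⟨e, he⟩ := exists_nat_gt (1 / ε)
  have he0 : (0 : ℝ) < e := lt_trans (by positivity) he
  have he1 : 1 ≤ e := by exact_mod_cast he0
  have hle : 1 / (e : ℝ) ≤ ε := by
    rw [div_le_iff₀ he0]
    rw [div_lt_iff₀ hε] at he
    linarith
  obtain ⟨B, N₀, h⟩ := Pool.Agent.helper24_UT.Ch.t_R20 p e (2 * (A + C + 5)) C hp he1
  obtain ⟨N₁, h1⟩ := one_n δ hδ A C B
  refine ⟨B, max (max N₀ N₁) 3, fun N hN H x c s hH hcH hc hs hE => ?_⟩
  have hN3 : 3 ≤ N := (le_max_right _ _).trans hN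
  have hN1 : (1 : ℝ) ≤ N := by exact_mod_cast (by omega : 1 ≤ N)
  have hlog1 : 1 ≤ Real.log N := by
    rw [Real.le_log_iff_exp_le (by linarith)]
    have : (3 : ℝ) ≤ N := by exact_mod_cast hN3
    linarith [Real.exp_one_lt_d9]
  have key := h N (((le_max_left _ _).trans (le_max_left _ _)).trans hN) H x c s
    ((Real.rpow_le_rpow_of_exponent_le hN1 (by linarith)).trans hH) hcH ⟨fun m hm => by
      obtain ⟨h2, h3⟩ := hs m hm
      refine ⟨?_, ?_⟩
      · change (c : ℤ) < ((s m : ℕ) : ℤ)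
        exact_mod_cast h2
      · change ((s m : ℕ) : ℤ) ≤ (c : ℤ) + ((H : ℕ) : ℤ)
        exact_mod_cast h3, hE⟩
  refine le_trans ?_ (key.trans ?_)
  · unfold exceptions
    refine Nat.cast_le.2 (card_le_card fun m hm => ?_)
    have hm := mem_filter.1 hm
    refine mem_filter.2 ⟨hm.1, fun hg => hm.2.2 ?_⟩
    obtain ⟨h2, h3⟩ := hs m hm.1
    refine h1 N (((le_max_right _ _).trans (le_max_left _ _)).trans hN) (s m) hm.2.1 (by omega) ?_ hg
    refine hc.trans ?_
    apply mul_le_mul_of_nonneg_left _ (by positivity)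
    exact_mod_cast h2.le
  · apply div_le_div_of_nonneg_left (Nat.cast_nonneg _) (by positivity)
    exact pow_le_pow_right₀ hlog1 (by omega)

/-- Let `ε, δ > 0` and `A`, `C` be fixed.

* Let `p ≥ 1`. There is a `B` such that for all large `N` and all families `s 1, ..., s x` of integers in windows `(c, c + H]` with
  `N / (log N) ^ C ≤ c`, `c + H ≤ N`, `H ≥ N ^ (1 / 3 + ε)`, with an additive energy of order `p` at most
  `(log N) ^ C x ^ (2 p) / H`: `Holds` is true for all even members of the family with at most `x / (log N) ^ A` exceptions.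
* Let `f` be a nonconstant polynomial with integer coefficients, positive at all positive integers. There is a `B`
  such that for all large `N` the same is true for the numbers `c + f m`, `m ≤ x`, if
  `N ^ (1 / 3 + ε) ≤ x ^ deg f` and `c + x ^ deg f ≤ N`, `N / (log N) ^ C ≤ c`. -/
theorem result (ε δ : ℝ) (A C : ℕ) (hε : 0 < ε) (hδ : 0 < δ) :
    (∀ p : ℕ, 1 ≤ p → ∃ B N₀ : ℕ, ∀ N : ℕ, N₀ ≤ N →
      ∀ (H x c : ℕ) (s : ℕ → ℕ), (N : ℝ) ^ (1 / 3 + ε) ≤ H → c + H ≤ N → (N : ℝ) ≤ Real.log N ^ C * c →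
      (∀ m ∈ Icc 1 x, c < s m ∧ s m ≤ c + H) →
      (energy p x (fun m => (s m : ℤ)) : ℝ) * H ≤ Real.log N ^ C * (x : ℝ) ^ (2 * p) →
      (exceptions δ A B N x s : ℝ) ≤ x / Real.log N ^ A) ∧
    (∀ f : ℤ[X], 1 ≤ f.natDegree → (∀ m : ℕ, 1 ≤ m → 0 < f.eval (m : ℤ)) →
      ∃ B N₀ : ℕ, ∀ N : ℕ, N₀ ≤ N → ∀ x c : ℕ,
      (N : ℝ) ^ (1 / 3 + ε) ≤ (x : ℝ) ^ f.natDegree → c + x ^ f.natDegree ≤ N → (N : ℝ) ≤ Real.log N ^ C * c →
      (exceptions δ A B N x (fun m => c + (f.eval (m : ℤ)).toNat) : ℝ) ≤ x / Real.log N ^ A) := by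
  classical
  refine ⟨fun p hp => general ε δ A C p hε hδ hp, fun f hd hpos => ?_⟩
  obtain ⟨p, D, N₁, hp, hD, hfam⟩ := Pool.Agent.helper24_UT.Pf.poly_fam f hd
  obtain ⟨B, N₂, h⟩ := general (ε / 2) δ (A + 2) (C + 1) p (by positivity) hδ hp
  obtain ⟨N₃, hsc⟩ := Pool.Agent.helper24_UT.Pf.scale (2 * D) (by omega) ε hε B
  refine ⟨4 * B, max (max N₁ N₂) N₃, fun N hN x c hx1 hx2 hc => ?_⟩
  obtain ⟨g1, g2, g3, g4, g5, g6, g7⟩ := hsc N ((le_max_right _ _).trans hN)
  have hNN : N ≤ 2 * D * N := Nat.le_mul_of_pos_left N (by omega)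
  have hN0 : (0 : ℝ) < N := by exact_mod_cast (by omega : 0 < N)
  have hD' : (1 : ℝ) ≤ D := by exact_mod_cast hD
  have hN1' : N₁ ≤ 2 * D * N := ((le_max_left _ _).trans ((le_max_left _ _).trans hN)).trans hNN
  have hN2' : N₂ ≤ 2 * D * N := ((le_max_right _ _).trans ((le_max_left _ _).trans hN)).trans hNN
  have hlN : (0 : ℝ) < Real.log N := by linarith
  have hl' : (0 : ℝ) < Real.log ((2 * D * N : ℕ) : ℝ) := by linarith
  have h7 : (((2 * D * N : ℕ) : ℝ)) = ((2 * D : ℕ) : ℝ) * N := by push_cast; ring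
  have hx : 1 ≤ x := by
    by_contra hcon
    have h0 : x = 0 := by omega
    rw [h0, Nat.cast_zero, zero_pow (by omega)] at hx1
    have : (0 : ℝ) < (N : ℝ) ^ (1 / 3 + ε) := by positivity
    linarith
  have hcast : ∀ m ∈ Icc 1 x, (((c + (f.eval (m : ℤ)).toNat : ℕ)) : ℤ) = c + f.eval (m : ℤ) := by
    intro m hm
    push_cast
    rw [Int.toNat_of_nonneg (hpos m (mem_Icc.1 hm).1).le]
  have hen : energy p x (fun m => (((c + (f.eval (m : ℤ)).toNat : ℕ)) : ℤ)) =
      energy p x (fun m => (c : ℤ) + f.eval (m : ℤ)) := by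
    unfold energy
    congr 1
    apply filter_congr
    intro q hq
    rw [mem_product, Fintype.mem_piFinset, Fintype.mem_piFinset] at hq
    have e1 : ∑ j, (((c + (f.eval (q.1 j : ℤ)).toNat : ℕ)) : ℤ) = ∑ j, ((c : ℤ) + f.eval (q.1 j : ℤ)) :=
      sum_congr rfl fun j _ => hcast _ (hq.1 j)
    have e2 : ∑ j, (((c + (f.eval (q.2 j : ℤ)).toNat : ℕ)) : ℤ) = ∑ j, ((c : ℤ) + f.eval (q.2 j : ℤ)) :=
      sum_congr rfl fun j _ => hcast _ (hq.2 j)
    rw [e1, e2]
  have key := h (2 * D * N) hN2' (2 * D * x ^ f.natDegree) x c (fun m => c + (f.eval (m : ℤ)).toNat) (by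
      refine g6.trans (hx1.trans ?_)
      push_cast
      have : (0 : ℝ) ≤ (x : ℝ) ^ f.natDegree := by positivity
      nlinarith) (by
      calc c + 2 * D * x ^ f.natDegree ≤ 2 * D * c + 2 * D * x ^ f.natDegree :=
            Nat.add_le_add_right (Nat.le_mul_of_pos_left c (by omega)) _
        _ = 2 * D * (c + x ^ f.natDegree) := by ring
        _ ≤ 2 * D * N := Nat.mul_le_mul_left _ hx2) (by
      rw [h7]
      calc ((2 * D : ℕ) : ℝ) * N ≤ Real.log N * (Real.log N ^ C * c) :=
            mul_le_mul g3 hc hN0.le hlN.le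
        _ = Real.log N ^ (C + 1) * c := by ring
        _ ≤ Real.log (((2 * D : ℕ) : ℝ) * N) ^ (C + 1) * c := by
          apply mul_le_mul_of_nonneg_right _ (Nat.cast_nonneg _)
          rw [← h7]
          exact pow_le_pow_left₀ hlN.le g4 _) (fun m hm => by
      have hF := (hfam (2 * D * N) hN1' x hx 0).1 m hm
      have hp1 := hpos m (mem_Icc.1 hm).1
      have hF2 : 0 + f.eval (m : ℤ) ≤ 0 - (D : ℤ) * ((x : ℕ) : ℤ) ^ f.natDegree + ((2 * D * x ^ f.natDegree : ℕ) : ℤ) := hF.2
      have hc' := hcast m hm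
      push_cast at hF2
      have hx0 : (0 : ℤ) ≤ (D : ℤ) * (x : ℤ) ^ f.natDegree := by positivity
      constructor
      · have : ((c : ℕ) : ℤ) < (((c + (f.eval (m : ℤ)).toNat : ℕ)) : ℤ) := by rw [hc']; linarith
        exact_mod_cast this
      · have : (((c + (f.eval (m : ℤ)).toNat : ℕ)) : ℤ) ≤ ((c + 2 * D * x ^ f.natDegree : ℕ) : ℤ) := by
          rw [hc']
          push_cast
          linarith
        exact_mod_cast this) (by
      have hF := (hfam (2 * D * N) hN1' x hx c).2
      rw [hen]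
      refine hF.trans ?_
      apply mul_le_mul_of_nonneg_right _ (by positivity)
      rw [pow_one]
      exact le_self_pow₀ (by linarith) (by omega))
  refine le_trans ?_ (key.trans ?_)
  · unfold exceptions
    refine Nat.cast_le.2 (card_le_card fun m hm => ?_)
    have hm := mem_filter.1 hm
    refine mem_filter.2 ⟨hm.1, hm.2.1, fun hg => hm.2.2 ?_⟩
    obtain ⟨k1, k2⟩ := hg
    refine ⟨k1, fun Q hQ y hy => (k2 Q (hQ.trans g7) y (fun q r => (hy q r).trans hNN)).trans ?_⟩
    rw [div_le_div_iff₀ (by positivity) (by positivity)]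
    calc (((2 * D * N : ℕ) : ℝ)) ^ 2 * Real.log N ^ A = (N : ℝ) ^ 2 * (((2 * D : ℕ) : ℝ) ^ 2 * Real.log N ^ A) := by
          rw [h7]; ring
      _ ≤ (N : ℝ) ^ 2 * (Real.log N ^ 2 * Real.log N ^ A) := by
        apply mul_le_mul_of_nonneg_left _ (by positivity)
        apply mul_le_mul_of_nonneg_right _ (by positivity)
        exact pow_le_pow_left₀ (Nat.cast_nonneg _) g3 2
      _ = (N : ℝ) ^ 2 * Real.log N ^ (A + 2) := by ring
      _ ≤ (N : ℝ) ^ 2 * Real.log ((2 * D * N : ℕ) : ℝ) ^ (A + 2) := by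
        apply mul_le_mul_of_nonneg_left _ (by positivity)
        exact pow_le_pow_left₀ hlN.le g4 _
  · apply div_le_div_of_nonneg_left (Nat.cast_nonneg _) (by positivity)
    calc Real.log N ^ A ≤ Real.log N ^ (A + 2) := pow_le_pow_right₀ g2 (by omega)
      _ ≤ _ := pow_le_pow_left₀ (by linarith) g4 _

end Pool.Agent.Results.MP_dd84fd_nt.ThinFamiliesShortWindows
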